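import Pool.Agent.helper37.F2.Spec2

/-!
# FN: every rational number in `(1, 2)` is an exponent
-/

set_option autoImplicit false

namespace Pool.Agent.F2T

open Pool.Agent.helper23.TH Pool.Agent.F2

/-- FN -/
theorem FN (hTS : TS_stmt) (hT0 : T0_stmt) (hTA : TA_stmt) (hTV : TV_stmt) (hPL : PL_stmt) (hUB : UB_stmt)
    (hM : MONO_stmt) (hI : ISO_stmt) : FN_stmt := by
  intro r hr1 hr2
  have ha0 : 0 < 1 - r / 2 := by linarith
  have ha1 : 1 - r / 2 < 1 := by linarith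
  obtain ⟨T, hB, hI1, hE1, hIE, hST⟩ := hTA Good hT0 hTS (1 - r / 2) ha0.le ha1
  obtain ⟨T', hv, he, hbal, hcol, htwo⟩ := hTV T
  have hv1 : 1 ≤ T'.v := by rw [hv]; exact hI1
  have he1 : 1 ≤ T'.e := by rw [he]; exact hE1
  have heQ : (0 : ℚ) < (T'.e : ℚ) := by exact_mod_cast he1
  have hve : (T'.v : ℚ) = (T'.e : ℚ) * (r / 2) := by
    rw [hv, he, hIE]
    ring
  have h2 : T'.e ≤ 2 * T'.v := by
    have h3 : (T'.e : ℚ) ≤ 2 * (T'.v : ℚ) := by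
      rw [hve]
      nlinarith
    exact_mod_cast h3
  have hexp : 2 * ((T'.v : ℕ) : ℝ) / ((T'.e : ℕ) : ℝ) = (r : ℝ) := by
    have h3 : ((T'.v : ℕ) : ℝ) = ((T'.e : ℕ) : ℝ) * ((r : ℝ) / 2) := by exact_mod_cast hve
    have h4 : ((T'.e : ℕ) : ℝ) ≠ 0 := by
      have : (0 : ℝ) < ((T'.e : ℕ) : ℝ) := by exact_mod_cast he1
      exact this.ne'
    rw [h3]
    field_simp
  obtain ⟨p, C, hC, N, hup⟩ := hUB T' (hbal hB) hv1 he1 h2
  have ha0R : (0 : ℝ) < ((1 - r / 2 : ℚ) : ℝ) := by exact_mod_cast ha0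
  have ha1R : ((1 - r / 2 : ℚ) : ℝ) < 1 := by exact_mod_cast ha1
  obtain ⟨c, hc, N', hlow⟩ := hPL (T.pwH (p + 1)) ((1 - r / 2 : ℚ) : ℝ) ha0R ha1R (hST (p + 1) (by omega))
  have hexp2 : 2 - 2 * ((1 - r / 2 : ℚ) : ℝ) = (r : ℝ) := by
    push_cast
    ring
  apply hI _ (T'.pw (p + 1)) (r : ℝ) (hcol (p + 1))
  refine ⟨c, C, hc, hC, max N N', fun n hn => ⟨?_, fun m χ h1 h3 => ?_⟩⟩
  · obtain ⟨m, hm, χ, h1, h3⟩ := hup n ((le_max_left _ _).trans hn)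
    rw [hexp] at hm
    exact ⟨m, hm, χ, h1, fun h4 => h3 (hM T' p (p + 1) (Nat.le_succ p) _ _ χ h4)⟩
  · have h4 := hlow n ((le_max_right _ _).trans hn) m χ h1
      (fun h5 => h3 (htwo (p + 1) _ _ χ h1.symm h5))
    rw [hexp2] at h4
    exact h4

end Pool.Agent.F2T
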