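import Pool.Agent.helper37.F2.Spec2

/-!
# PG: the pair graph of a colouring as a labelled graph
-/

set_option autoImplicit false

namespace Pool.Agent.F2T

open Pool.Agent.helper23.TH Pool.Agent.F2

open Classical in
/-- PG -/
theorem PG : PG_stmt := by
  intro V K _ χ hχ c
  have hsym : ∀ u w : V × V, Ga χ u w → Ga χ w u := by
    rintro u w ⟨h1, h2, h3, h4, h5, h6, h7⟩
    refine ⟨h2, h1, h3.symm, h5.symm, h4.symm, h6.symm, ?_⟩
    rw [hχ.symm w.1 u.1, hχ.symm w.2 u.2]
    exact h7
  let G : LG {u : V × V // u.1 ≠ u.2} (V ⊕ {u : V × V // u.1 ≠ u.2}) 3 2 :=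
    { A := fun u w => Ga χ u.1 w.1 ∧ c u ≠ c w
      symm := fun u w h => ⟨hsym _ _ h.1, fun h' => h.2 h'.symm⟩
      c := c
      bip := fun u w h => h.2
      lv := fun u => {Sum.inl u.1.1, Sum.inl u.1.2, Sum.inr u}
      le := fun _ _ => ∅
      lsymm := fun _ _ => rfl
      nm := fun u => Sum.inr u
      nmi := Sum.inr_injective
      nmm := fun u => by simp
      bv := fun u => Finset.card_le_three
      be := fun _ _ => by simp
      sp := by
        intro v x S hS
        rcases x with a | w0
        · have hsub : S ⊆ (S.filter fun w => w.1.1 = a) ∪ (S.filter fun w => w.1.2 = a) := by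
            intro w hw
            obtain ⟨_, h2 | h2⟩ := hS w hw
            · simp only [Finset.mem_insert, Finset.mem_singleton, Sum.inl.injEq, reduceCtorEq, or_false] at h2
              rcases h2 with h2 | h2
              · exact Finset.mem_union_left _ (Finset.mem_filter.2 ⟨hw, h2.symm⟩)
              · exact Finset.mem_union_right _ (Finset.mem_filter.2 ⟨hw, h2.symm⟩)
            · simp at h2
          have h1 : (S.filter fun w => w.1.1 = a).card ≤ 1 := by
            apply Finset.card_le_one.2
            intro w hw w' hw'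
            obtain ⟨hw1, hw2⟩ := Finset.mem_filter.1 hw
            obtain ⟨hw1', hw2'⟩ := Finset.mem_filter.1 hw'
            obtain ⟨k1, k2, k3, k4, k5, k6, k7⟩ := (hS w hw1).1.1
            obtain ⟨l1, l2, l3, l4, l5, l6, l7⟩ := (hS w' hw1').1.1
            apply Subtype.ext
            refine Prod.ext (hw2.trans hw2'.symm) ?_
            by_contra hne
            apply hχ.proper v.1.2 w.1.2 w'.1.2 k6 l6 hne
            rw [← k7, ← l7, hw2, hw2']
          have h2 : (S.filter fun w => w.1.2 = a).card ≤ 1 := by
            apply Finset.card_le_one.2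
            intro w hw w' hw'
            obtain ⟨hw1, hw2⟩ := Finset.mem_filter.1 hw
            obtain ⟨hw1', hw2'⟩ := Finset.mem_filter.1 hw'
            obtain ⟨k1, k2, k3, k4, k5, k6, k7⟩ := (hS w hw1).1.1
            obtain ⟨l1, l2, l3, l4, l5, l6, l7⟩ := (hS w' hw1').1.1
            apply Subtype.ext
            refine Prod.ext ?_ (hw2.trans hw2'.symm)
            by_contra hne
            apply hχ.proper v.1.1 w.1.1 w'.1.1 k3 l3 hne
            rw [k7, l7, hw2, hw2']
          calc S.card ≤ ((S.filter fun w => w.1.1 = a) ∪ (S.filter fun w => w.1.2 = a)).card :=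
                Finset.card_le_card hsub
            _ ≤ (S.filter fun w => w.1.1 = a).card + (S.filter fun w => w.1.2 = a).card :=
                Finset.card_union_le _ _
            _ ≤ 2 := by omega
        · have hsub : S ⊆ {w0} := by
            intro w hw
            obtain ⟨_, h2 | h2⟩ := hS w hw
            · simp only [Finset.mem_insert, Finset.mem_singleton, Sum.inr.injEq, reduceCtorEq, false_or] at h2
              rw [h2]
              exact Finset.mem_singleton_self _
            · simp at h2
          have := Finset.card_le_card hsub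
          simp at this
          omega }
  refine ⟨G, fun u w => Iff.rfl, ?_⟩
  rintro H ⟨φ, hφ, -⟩
  have hd : ∀ w w' : H.W, w ≠ w' → (φ w).1.1 ≠ (φ w').1.1 ∧ (φ w).1.1 ≠ (φ w').1.2 ∧ (φ w).1.2 ≠ (φ w').1.1 ∧
      (φ w).1.2 ≠ (φ w').1.2 := by
    intro w w' hne
    have h1 := hφ.dis (Sum.inl w) (Sum.inl w') (fun h => hne (Sum.inl_injective h))
    have h2 : Disjoint ({Sum.inl (φ w).1.1, Sum.inl (φ w).1.2, Sum.inr (φ w)} :
        Finset (V ⊕ {u : V × V // u.1 ≠ u.2})) {Sum.inl (φ w').1.1, Sum.inl (φ w').1.2, Sum.inr (φ w')} := h1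
    rw [Finset.disjoint_left] at h2
    refine ⟨fun h => ?_, fun h => ?_, fun h => ?_, fun h => ?_⟩
    · exact h2 (a := Sum.inl (φ w).1.1) (by simp) (by simp [h])
    · exact h2 (a := Sum.inl (φ w).1.1) (by simp) (by simp [h])
    · exact h2 (a := Sum.inl (φ w).1.2) (by simp) (by simp [h])
    · exact h2 (a := Sum.inl (φ w).1.2) (by simp) (by simp [h])
  refine ⟨fun w => (φ w).1.1, fun w => (φ w).1.2, ?_, ?_, ?_, ?_⟩
  · intro a b hab
    by_contra hne
    exact (hd a b hne).1 hab
  · intro a b hab
    by_contra hne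
    exact (hd a b hne).2.2.2 hab
  · intro a b hab
    by_cases hne : a = b
    · subst hne
      exact (φ a).2 hab
    · exact (hd a b hne).2.1 hab
  · intro e
    exact (hφ.adj e).1.2.2.2.2.2.2

end Pool.Agent.F2T
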