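import Pool.Agent.helper37.F2.Spec2

/-!
# TE: the power of `L_t(T)` is a part of `L_t` of the power of `T`
-/

set_option autoImplicit false

namespace Pool.Agent.F2T

open Pool.Agent.helper23.TH Pool.Agent.F2

/-- the vertices -/
def TE_f (T : RT) (t p : ℕ) : ((T.Lt t).pwH p).W → ((T.pwH p).Lt t).W
  | .inl (.inl r) => .inl (.inl (.inl r))
  | .inl (.inr b) => .inl (.inr b)
  | .inr (j, .inl y) => .inl (.inl (.inr (j, y)))
  | .inr (j, .inr (e, k)) => .inr ((j, e), k)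

/-- the edges -/
def TE_g (T : RT) (t p : ℕ) : ((T.Lt t).pwH p).E → ((T.pwH p).Lt t).E
  | (j, .inl y) => .inl (.inr (j, y))
  | (j, .inr (e, i)) => .inr ((j, e), i)

theorem TE_em (T : RT) (t p : ℕ) (j : Fin p) (x : T.R ⊕ T.I) :
    TE_f T t p ((T.Lt t).li j (T.em t x)) = .inl (.inl (T.li j x)) := by
  rcases x with x | x <;> rfl

theorem TE_pt (T : RT) (t p : ℕ) (j : Fin p) (e : T.E) (i : ℕ) :
    TE_f T t p ((T.Lt t).li j (T.pt t e i)) = (T.pwH p).pt t (j, e) i := by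
  unfold RT.pt HG.pt
  split_ifs with h1 h2
  · rfl
  · exact TE_em T t p j _
  · exact TE_em T t p j _

/-- TE -/
theorem TE : TE_stmt := by
  intro T t p ht
  refine ⟨TE_f T t p, TE_g T t p, ?_, ?_, ?_, ?_⟩
  · rintro ((r | b) | ⟨j, (y | ⟨e, k⟩)⟩) ((r' | b') | ⟨j', (y' | ⟨e', k'⟩)⟩) h
    all_goals first
      | (cases h; rfl)
      | cases h
  · rintro ⟨j, (y | ⟨e, k⟩)⟩ ⟨j', (y' | ⟨e', k'⟩)⟩ h
    all_goals first
      | (cases h; rfl)
      | cases h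
  · rintro ((r | b) | ⟨j, (y | ⟨e, k⟩)⟩)
    · rfl
    · rfl
    · rfl
    · show (T.pwH p).ltcol t (.inr ((j, e), k)) = T.ltcol t (.inr (.inr (e, k)))
      simp only [HG.ltcol, RT.ltcol]
      have h1 : (T.pwH p).col ((T.pwH p).ed (j, e)).1 = T.col (T.ed e).1 := T.pcol_li j _
      rw [h1]
  · rintro ⟨j, (y | ⟨e, i⟩)⟩
    · exact Or.inl rfl
    · left
      show ((T.pwH p).pt t (j, e) i.1, (T.pwH p).pt t (j, e) (i.1 + 1)) =
        (TE_f T t p ((T.Lt t).li j (T.pt t e i.1)), TE_f T t p ((T.Lt t).li j (T.pt t e (i.1 + 1))))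
      rw [TE_pt, TE_pt]
      rfl

end Pool.Agent.F2T
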